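import Mathlib

/-!
# Rigid local algebras: fibre products over the ground field are never rigid (helper38)

`m = (x_1, ..., x_n)` is `idealOfVars (Fin n) K`, the span of the variables.
-/

namespace Pool.Agent.H38.Rig

open MvPolynomial

variable {K : Type} [Field K] {n : ℕ}

theorem mem_vars_iff (f : MvPolynomial (Fin n) K) :
    f ∈ idealOfVars (Fin n) K ↔ constantCoeff f = 0 := by
  have h := mem_pow_idealOfVars_iff (σ := Fin n) (R := K) 1 f
  rw [pow_one] at h
  rw [h]
  constructor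
  · intro h1
    by_contra h0
    have h2 : (0 : Fin n →₀ ℕ) ∈ f.support := by
      rw [mem_support_iff]
      rwa [constantCoeff_eq] at h0
    have := h1 0 h2
    simp at this
  · intro h0 x hx
    by_contra hlt
    have hx0 : x = 0 := by
      rw [← Finsupp.degree_eq_zero_iff]
      omega
    rw [hx0, mem_support_iff] at hx
    exact hx (by rwa [constantCoeff_eq] at h0)

theorem cancel {Q : Ideal (MvPolynomial (Fin n) K)} {N : ℕ}
    (hQ : idealOfVars (Fin n) K ^ N ≤ Q) {u y : MvPolynomial (Fin n) K}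
    (hu : u ∉ idealOfVars (Fin n) K) (h : u * y ∈ Q) : y ∈ Q := by
  have h0 : constantCoeff u ≠ 0 := fun h => hu ((mem_vars_iff u).2 h)
  have h1 : Ideal.span {u} ⊔ idealOfVars (Fin n) K = ⊤ := by
    rw [Ideal.eq_top_iff_one]
    have h2 : u - C (constantCoeff u) ∈ idealOfVars (Fin n) K := by
      rw [mem_vars_iff]
      simp
    have h3 : C (constantCoeff u) ∈ Ideal.span {u} ⊔ idealOfVars (Fin n) K := by
      have : C (constantCoeff u) = u - (u - C (constantCoeff u)) := by ring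
      rw [this]
      exact Ideal.sub_mem _ (Ideal.mem_sup_left (Ideal.subset_span rfl)) (Ideal.mem_sup_right h2)
    have h4 := Ideal.mul_mem_left _ (C (constantCoeff u)⁻¹) h3
    rwa [← C_mul, inv_mul_cancel₀ h0, C_1] at h4
  have h5 : Ideal.span {u} ⊔ idealOfVars (Fin n) K ^ N = ⊤ := Ideal.sup_pow_eq_top h1
  have h6 : (1 : MvPolynomial (Fin n) K) ∈ Ideal.span {u} ⊔ idealOfVars (Fin n) K ^ N := by
    rw [h5]; trivial
  obtain ⟨a, ha, b, hb, hab⟩ := Submodule.mem_sup.1 h6
  obtain ⟨w, rfl⟩ := Ideal.mem_span_singleton'.1 ha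
  have : y = w * (u * y) + b * y := by linear_combination (-y) * hab
  rw [this]
  exact Ideal.add_mem _ (Ideal.mul_mem_left _ _ h) (Ideal.mul_mem_right _ _ (hQ hb))

theorem one_notMem : (1 : MvPolynomial (Fin n) K) ∉ idealOfVars (Fin n) K := by
  rw [mem_vars_iff]; simp

theorem le_vars {Q : Ideal (MvPolynomial (Fin n) K)} {N : ℕ}
    (hQ : idealOfVars (Fin n) K ^ N ≤ Q) (h : Q ≠ ⊤) : Q ≤ idealOfVars (Fin n) K := by
  intro u hu
  by_contra hm
  apply h
  rw [Ideal.eq_top_iff_one]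
  exact cancel hQ hm (by rwa [mul_one])

/-- A derivation with `D (P ∩ Q) ⊆ Q` maps `Q` to the maximal ideal, if `P` is not in `Q`. -/
theorem der_mem_right {P Q : Ideal (MvPolynomial (Fin n) K)} {N : ℕ}
    (hNQ : idealOfVars (Fin n) K ^ N ≤ Q) (hPQ : ¬ P ≤ Q)
    (D : Derivation K (MvPolynomial (Fin n) K) (MvPolynomial (Fin n) K))
    (hD : ∀ f ∈ P ⊓ Q, D f ∈ Q) {b : MvPolynomial (Fin n) K} (hb : b ∈ Q) :
    D b ∈ idealOfVars (Fin n) K := by
  by_contra hu
  apply hPQ
  intro a ha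
  have h1 : a * b ∈ P ⊓ Q := ⟨P.mul_mem_right _ ha, Q.mul_mem_left _ hb⟩
  have h2 := hD _ h1
  rw [Derivation.leibniz, smul_eq_mul, smul_eq_mul] at h2
  have h3 : D b * a ∈ Q := by
    have : D b * a = (a * D b + b * D a) - b * D a := by ring
    rw [this]
    exact Q.sub_mem h2 (Q.mul_mem_right _ hb)
  exact cancel hNQ hu h3

/-- A derivation with `D (P ∩ Q) ⊆ Q` maps `P` to the maximal ideal, in characteristic zero. -/
theorem der_mem_left [CharZero K] {P Q : Ideal (MvPolynomial (Fin n) K)} {N : ℕ}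
    (hN : idealOfVars (Fin n) K ^ N ≤ P ⊓ Q)
    (hP : P ≤ idealOfVars (Fin n) K) (hQ : Q ≤ idealOfVars (Fin n) K)
    (D : Derivation K (MvPolynomial (Fin n) K) (MvPolynomial (Fin n) K))
    (hD : ∀ f ∈ P ⊓ Q, D f ∈ Q) {a : MvPolynomial (Fin n) K} (ha : a ∈ P) :
    D a ∈ idealOfVars (Fin n) K := by
  have hNQ : idealOfVars (Fin n) K ^ N ≤ Q := hN.trans inf_le_right
  by_contra hu
  have hex : ∃ k, a ^ k ∈ P ⊓ Q := ⟨N, hN (Ideal.pow_mem_pow (hP ha) N)⟩
  classical
  have hk := Nat.find_spec hex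
  have hmin := fun j (hj : j < Nat.find hex) => Nat.find_min hex hj
  generalize Nat.find hex = k at hk hmin
  rcases k with _ | j
  · rw [pow_zero] at hk
    exact one_notMem (hQ hk.2)
  · have h2 := hD _ hk
    rw [Derivation.leibniz_pow, Nat.add_sub_cancel, smul_eq_mul, nsmul_eq_mul] at h2
    have h3 : D a * a ^ j ∈ Q := by
      have h4 := Q.mul_mem_left (C ((j + 1 : ℕ) : K)⁻¹) h2
      have h5 : (C ((j + 1 : ℕ) : K)⁻¹ : MvPolynomial (Fin n) K) *
          ((j + 1 : ℕ) : MvPolynomial (Fin n) K) = 1 := by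
        have h6 : ((j + 1 : ℕ) : MvPolynomial (Fin n) K) = C ((j + 1 : ℕ) : K) := by simp
        rw [h6, ← C_mul, inv_mul_cancel₀ (by exact_mod_cast Nat.succ_ne_zero j), C_1]
      have h7 : D a * a ^ j = C ((j + 1 : ℕ) : K)⁻¹ *
          (((j + 1 : ℕ) : MvPolynomial (Fin n) K) * (a ^ j * D a)) := by
        linear_combination (-(D a * a ^ j)) * h5
      rw [h7]
      exact h4
    have h8 := cancel hNQ hu h3
    rcases j with _ | j
    · rw [pow_zero] at h8
      exact one_notMem (hQ h8)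
    · exact hmin (j + 1) (by omega) ⟨P.pow_mem_of_mem ha _ (by omega), h8⟩

end Pool.Agent.H38.Rig
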