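import Pool.Agent.H38.Rig.Fibre

/-!
# Rigid local algebras: fibre products over the ground field are never rigid, end (helper38)
-/

namespace Pool.Agent.H38.Rig

open MvPolynomial

variable {K : Type} [Field K] {n : ℕ}

/-- the linear part -/
noncomputable def lin : MvPolynomial (Fin n) K →ₗ[K] (Fin n → K) :=
  LinearMap.pi fun i => MvPolynomial.lcoeff K (Finsupp.single i 1)

theorem lin_apply (f : MvPolynomial (Fin n) K) (i : Fin n) :
    lin f i = coeff (Finsupp.single i 1) f := rfl

theorem const_pderiv (f : MvPolynomial (Fin n) K) (i : Fin n) :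
    constantCoeff (pderiv i f) = lin f i := by
  rw [constantCoeff_eq, coeff_pderiv, lin_apply]
  simp

theorem mem_sq (f : MvPolynomial (Fin n) K) (h0 : constantCoeff f = 0) (h1 : lin f = 0) :
    f ∈ idealOfVars (Fin n) K ^ 2 := by
  rw [mem_pow_idealOfVars_iff]
  intro x hx
  by_contra hlt
  rw [mem_support_iff] at hx
  have hd : x.degree = 0 ∨ x.degree = 1 := by omega
  rcases hd with hd | hd
  · rw [Finsupp.degree_eq_zero_iff] at hd
    rw [hd] at hx
    exact hx (by rwa [constantCoeff_eq] at h0)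
  · obtain ⟨i, hi⟩ : ∃ i, x = Finsupp.single i 1 := by
      have hx0 : x ≠ 0 := by
        rintro rfl
        simp at hd
      obtain ⟨i, hi⟩ := Finsupp.ne_iff.1 hx0
      have hi' : 1 ≤ x i := Nat.one_le_iff_ne_zero.2 hi
      refine ⟨i, ?_⟩
      have h2 : Finsupp.single i 1 + (x - Finsupp.single i 1) = x := by
        refine add_tsub_cancel_of_le ?_
        rw [Finsupp.single_le_iff]
        exact hi'
      have h3 : (x - Finsupp.single i 1).degree = 0 := by
        have := congrArg Finsupp.degree h2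
        rw [map_add, Finsupp.degree_single, hd] at this
        omega
      rw [Finsupp.degree_eq_zero_iff] at h3
      rw [h3, add_zero] at h2
      exact h2.symm
    rw [hi] at hx
    apply hx
    have := congrFun h1 i
    rwa [lin_apply] at this

theorem lin_X (i j : Fin n) : lin (X i : MvPolynomial (Fin n) K) j = if i = j then 1 else 0 := by
  rw [lin_apply, coeff_X]
  simp [Finsupp.single_left_inj]

/-- a nonzero tangent vector of a finite local scheme which is not reduced -/
theorem exists_tangent {I : Ideal (MvPolynomial (Fin n) K)} {N : ℕ}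
    (hN : idealOfVars (Fin n) K ^ N ≤ I) (hI : I ≤ idealOfVars (Fin n) K)
    (hne : ¬ idealOfVars (Fin n) K ≤ I) :
    ∃ v : Fin n → K, v ≠ 0 ∧ ∀ f ∈ I, ∑ i, v i * lin f i = 0 := by
  by_cases htop : Submodule.map (lin (K := K) (n := n)) (I.restrictScalars K) = ⊤
  · exfalso
    apply hne
    have h1 : idealOfVars (Fin n) K ≤ I ⊔ idealOfVars (Fin n) K ^ 2 := by
      rw [idealOfVars, Ideal.span_le]
      rintro _ ⟨i, rfl⟩
      have : (Pi.single i 1 : Fin n → K) ∈ Submodule.map (lin (K := K) (n := n)) (I.restrictScalars K) := by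
        rw [htop]; trivial
      obtain ⟨f, hf, hfi⟩ := this
      have hf' : f ∈ I := hf
      have h2 : (X i : MvPolynomial (Fin n) K) = f + (X i - f) := by ring
      rw [h2]
      refine Ideal.add_mem _ (Ideal.mem_sup_left hf') (Ideal.mem_sup_right ?_)
      apply mem_sq
      · rw [map_sub, constantCoeff_X, (mem_vars_iff f).1 (hI hf'), sub_zero]
      · ext j
        rw [map_sub, Pi.sub_apply, lin_X, hfi, Pi.single_apply]
        by_cases hij : i = j
        · simp [hij]
        · simp [hij, Ne.symm hij]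
    have h2 : ∀ k, idealOfVars (Fin n) K ≤ I ⊔ idealOfVars (Fin n) K ^ (k + 1) := by
      intro k
      induction k with
      | zero => rw [pow_one]; exact le_sup_right
      | succ k ih =>
        refine h1.trans (sup_le le_sup_left ?_)
        calc idealOfVars (Fin n) K ^ 2 = idealOfVars (Fin n) K * idealOfVars (Fin n) K := pow_two _
          _ ≤ (I ⊔ idealOfVars (Fin n) K ^ (k + 1)) * idealOfVars (Fin n) K := Ideal.mul_mono_left ih
          _ = I * idealOfVars (Fin n) K ⊔ idealOfVars (Fin n) K ^ (k + 1) * idealOfVars (Fin n) K :=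
            Ideal.sup_mul _ _ _
          _ ≤ I ⊔ idealOfVars (Fin n) K ^ (k + 1 + 1) := by
            refine sup_le_sup Ideal.mul_le_left ?_
            rw [pow_succ _ (k + 1)]
    refine (h2 N).trans (sup_le le_rfl ((Ideal.pow_le_pow_right (by omega)).trans hN))
  · obtain ⟨l, hl, hle⟩ := Submodule.exists_le_ker_of_lt_top _ (lt_top_iff_ne_top.2 htop)
    refine ⟨fun i => l (Pi.single i 1), ?_, ?_⟩
    · intro h
      apply hl
      refine LinearMap.pi_ext' fun i => ?_
      ext
      simpa using congrFun h i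
    · intro f hf
      have h1 : l (lin f) = 0 := LinearMap.mem_ker.1 (hle ⟨f, hf, rfl⟩)
      have h2 : lin f = ∑ i, lin f i • (Pi.single i 1 : Fin n → K) := by
        ext j
        simp [Finset.sum_apply, Pi.single_apply]
      rw [h2, map_sum] at h1
      rw [← h1]
      refine Finset.sum_congr rfl fun i _ => ?_
      rw [map_smul, smul_eq_mul, mul_comm]

theorem mkDer_apply (a : Fin n → MvPolynomial (Fin n) K) (f : MvPolynomial (Fin n) K) :
    mkDerivation K a f = ∑ i, pderiv i f * a i := by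
  have hs : ∀ g : MvPolynomial (Fin n) K, (∑ i, a i • pderiv (R := K) i :
      Derivation K (MvPolynomial (Fin n) K) (MvPolynomial (Fin n) K)) g =
      ∑ i, a i • pderiv i g := by
    intro g
    have := map_sum (Derivation.coeFnAddMonoidHom (R := K) (A := MvPolynomial (Fin n) K)
      (M := MvPolynomial (Fin n) K)) (fun i => a i • pderiv (R := K) i) Finset.univ
    have h2 := congrFun this g
    rw [Finset.sum_apply] at h2
    exact h2
  have h : mkDerivation K a = ∑ i, a i • pderiv (R := K) i := by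
    refine derivation_ext fun j => ?_
    rw [mkDerivation_X, hs]
    rw [Finset.sum_eq_single j]
    · simp
    · intro b _ hb
      rw [pderiv_X_of_ne (Ne.symm hb), smul_zero]
    · simp
  rw [h, hs]
  refine Finset.sum_congr rfl fun i _ => ?_
  rw [smul_eq_mul, mul_comm]

/-- **Gluing.** Let `P ∩ Q = I`, `P` and `Q` different from `I`, and let `d` be a derivation with
`d I ⊆ P + Q` and `d a` not in the maximal ideal for some `a` in `P`. Then `I` is not rigid. -/
theorem glue [CharZero K] {I P Q : Ideal (MvPolynomial (Fin n) K)}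
    (hN : ∃ N : ℕ, idealOfVars (Fin n) K ^ N ≤ I)
    (hinf : P ⊓ Q = I) (hP : P ≠ I) (hQ : Q ≠ I)
    (d : Derivation K (MvPolynomial (Fin n) K) (MvPolynomial (Fin n) K))
    (hdI : ∀ f ∈ I, d f ∈ P ⊔ Q) {a₀ : MvPolynomial (Fin n) K} (ha₀ : a₀ ∈ P)
    (hda : d a₀ ∉ idealOfVars (Fin n) K) :
    ∃ φ : I →ₗ[MvPolynomial (Fin n) K] (MvPolynomial (Fin n) K ⧸ I),
      ¬ ∃ a : Fin n → MvPolynomial (Fin n) K ⧸ I, ∀ f : I,
        φ f = ∑ i : Fin n,
          Ideal.Quotient.mk I (pderiv i (f : MvPolynomial (Fin n) K)) * a i := by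
  obtain ⟨N, hN⟩ := hN
  have hIP : I ≤ P := hinf ▸ inf_le_left
  have hIQ : I ≤ Q := hinf ▸ inf_le_right
  have hPQ : ¬ P ≤ Q := fun h => hP (le_antisymm (hinf ▸ le_inf le_rfl h) hIP)
  have hQP : ¬ Q ≤ P := fun h => hQ (le_antisymm (hinf ▸ le_inf h le_rfl) hIQ)
  have hPm : P ≤ idealOfVars (Fin n) K :=
    le_vars (hN.trans hIP) (fun h => hQP (h ▸ le_top))
  have hQm : Q ≤ idealOfVars (Fin n) K :=
    le_vars (hN.trans hIQ) (fun h => hPQ (h ▸ le_top))
  have hex : ∀ f : I, ∃ q ∈ Q, d (f : MvPolynomial (Fin n) K) - q ∈ P := by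
    intro f
    obtain ⟨p, hp, q, hq, h⟩ := Submodule.mem_sup.1 (hdI f f.2)
    exact ⟨q, hq, by rw [← h]; simpa using hp⟩
  choose q hq hqP using hex
  have hadd : ∀ f g : I, Ideal.Quotient.mk I (q (f + g)) =
      Ideal.Quotient.mk I (q f) + Ideal.Quotient.mk I (q g) := by
    intro f g
    rw [← map_add, Ideal.Quotient.eq]
    refine hinf.le ⟨?_, Q.sub_mem (hq _) (Q.add_mem (hq _) (hq _))⟩
    have h1 := P.sub_mem (P.add_mem (hqP f) (hqP g)) (hqP (f + g))
    have h2 : d ((f : MvPolynomial (Fin n) K)) - q f + (d (g : MvPolynomial (Fin n) K) - q g) -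
        (d ((f + g : I) : MvPolynomial (Fin n) K) - q (f + g)) = q (f + g) - (q f + q g) := by
      rw [Submodule.coe_add, map_add]
      ring
    rw [← h2]
    exact h1
  have hsmul : ∀ (r : MvPolynomial (Fin n) K) (f : I), Ideal.Quotient.mk I (q (r • f)) =
      r • Ideal.Quotient.mk I (q f) := by
    intro r f
    have hs : r • Ideal.Quotient.mk I (q f) = Ideal.Quotient.mk I (r * q f) := rfl
    rw [hs, Ideal.Quotient.eq]
    refine hinf.le ⟨?_, Q.sub_mem (hq _) (Q.mul_mem_left _ (hq _))⟩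
    have h0 : (f : MvPolynomial (Fin n) K) * d r ∈ P := P.mul_mem_right _ (hIP f.2)
    have h1 := P.add_mem (P.sub_mem (P.mul_mem_left r (hqP f)) (hqP (r • f))) h0
    have h2 : r * (d (f : MvPolynomial (Fin n) K) - q f) -
        (d ((r • f : I) : MvPolynomial (Fin n) K) - q (r • f)) +
        (f : MvPolynomial (Fin n) K) * d r = q (r • f) - r * q f := by
      rw [Submodule.coe_smul, smul_eq_mul, Derivation.leibniz, smul_eq_mul, smul_eq_mul]
      ring
    rw [← h2]
    exact h1
  refine ⟨{ toFun := fun f => Ideal.Quotient.mk I (q f)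
            map_add' := hadd
            map_smul' := hsmul }, ?_⟩
  rintro ⟨a, ha⟩
  choose α hα using fun i => Ideal.Quotient.mk_surjective (I := I) (a i)
  set D : Derivation K (MvPolynomial (Fin n) K) (MvPolynomial (Fin n) K) :=
    mkDerivation K α with hDdef
  have hD : ∀ f (hf : f ∈ I), D f - q ⟨f, hf⟩ ∈ I := by
    intro f hf
    rw [← Ideal.Quotient.eq, hDdef, mkDer_apply, map_sum]
    have h1 := ha ⟨f, hf⟩
    change Ideal.Quotient.mk I (q ⟨f, hf⟩) = _ at h1
    rw [h1]
    refine Finset.sum_congr rfl fun i _ => ?_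
    rw [map_mul, hα]
  have hDQ : ∀ f ∈ P ⊓ Q, D f ∈ Q := by
    intro f hf
    rw [hinf] at hf
    have := Q.add_mem (hIQ (hD f hf)) (hq ⟨f, hf⟩)
    rwa [sub_add_cancel] at this
  have hEP : ∀ f ∈ Q ⊓ P, (d - D) f ∈ P := by
    intro f hf
    rw [inf_comm, hinf] at hf
    have := P.sub_mem (hqP ⟨f, hf⟩) (hIP (hD f hf))
    rw [Derivation.sub_apply]
    have h2 : d f - D f = d f - q ⟨f, hf⟩ - (D f - q ⟨f, hf⟩) := by ring
    rw [h2]
    exact this
  have h1 := der_mem_left (hinf.symm ▸ hN) hPm hQm D hDQ ha₀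
  have h2 := der_mem_right (hN.trans hIP) hQP (d - D) hEP ha₀
  apply hda
  have h3 := Ideal.add_mem _ h1 h2
  rwa [Derivation.sub_apply, add_sub_cancel] at h3

/-- **Fibre products are never rigid.** -/
theorem fibre [CharZero K] {I P Q : Ideal (MvPolynomial (Fin n) K)}
    (hN : ∃ N : ℕ, Ideal.span (Set.range (X : Fin n → MvPolynomial (Fin n) K)) ^ N ≤ I)
    (hinf : P ⊓ Q = I)
    (hsup : P ⊔ Q = Ideal.span (Set.range (X : Fin n → MvPolynomial (Fin n) K)))
    (hP : P ≠ I) (hQ : Q ≠ I) :
    ∃ φ : I →ₗ[MvPolynomial (Fin n) K] (MvPolynomial (Fin n) K ⧸ I),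
      ¬ ∃ a : Fin n → MvPolynomial (Fin n) K ⧸ I, ∀ f : I,
        φ f = ∑ i : Fin n,
          Ideal.Quotient.mk I (pderiv i (f : MvPolynomial (Fin n) K)) * a i := by
  change P ⊔ Q = idealOfVars (Fin n) K at hsup
  obtain ⟨N, hN'⟩ := id hN
  change idealOfVars (Fin n) K ^ N ≤ I at hN'
  have hIP : I ≤ P := hinf ▸ inf_le_left
  have hPm : P ≤ idealOfVars (Fin n) K := hsup ▸ le_sup_left
  obtain ⟨v, hv0, hv⟩ := exists_tangent hN' (hIP.trans hPm)
    (fun h => hP (le_antisymm (hPm.trans h) hIP))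
  set d : Derivation K (MvPolynomial (Fin n) K) (MvPolynomial (Fin n) K) :=
    mkDerivation K fun i => C (v i) with hd
  have hdI : ∀ f ∈ I, d f ∈ idealOfVars (Fin n) K := by
    intro f hf
    rw [mem_vars_iff, hd, mkDer_apply, map_sum, ← hv f hf]
    refine Finset.sum_congr rfl fun i _ => ?_
    rw [map_mul, constantCoeff_C, const_pderiv, mul_comm]
  obtain ⟨j, hj⟩ := Function.ne_iff.1 hv0
  have hX : (X j : MvPolynomial (Fin n) K) ∈ P ⊔ Q := by
    rw [hsup]; exact Ideal.subset_span ⟨j, rfl⟩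
  obtain ⟨p, hp, q, hq, hpq⟩ := Submodule.mem_sup.1 hX
  by_cases hdp : d p ∈ idealOfVars (Fin n) K
  · have hdq : d q ∉ idealOfVars (Fin n) K := by
      intro hdq
      have h3 := Ideal.add_mem _ hdp hdq
      rw [← map_add, hpq, hd, mkDerivation_X, mem_vars_iff, constantCoeff_C] at h3
      exact hj h3
    exact glue hN (by rw [inf_comm]; exact hinf) hQ hP d
      (by rw [sup_comm, hsup]; exact hdI) hq hdq
  · exact glue hN hinf hP hQ d (by rw [hsup]; exact hdI) hp hdp

end Pool.Agent.H38.Rig
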