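import Pool.Agent.H38.Rig.Fibre2

/-!
# Rigid local algebras: generators, socle and quotients by an element (helper38)

`A = S / I` rigid: `dim (I / mI) * dim soc A ≤ n * dim A / (xA + soc A)` for every `x` in `m`.
-/

namespace Pool.Agent.H38.Rig

open MvPolynomial Module

variable {K : Type} [Field K] {n : ℕ}

/-- the socle of `S / I` -/
noncomputable def soc (I : Ideal (MvPolynomial (Fin n) K)) : Ideal (MvPolynomial (Fin n) K ⧸ I) :=
  ((idealOfVars (Fin n) K).map (Ideal.Quotient.mk I)).annihilator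

theorem mem_soc {I : Ideal (MvPolynomial (Fin n) K)} {a : MvPolynomial (Fin n) K ⧸ I} :
    a ∈ soc I ↔ ∀ y ∈ idealOfVars (Fin n) K, Ideal.Quotient.mk I y * a = 0 := by
  rw [soc, Submodule.mem_annihilator]
  constructor
  · intro h y hy
    rw [mul_comm]
    exact h _ (Ideal.mem_map_of_mem _ hy)
  · intro h z hz
    have h2 : ∀ z ∈ (idealOfVars (Fin n) K).map (Ideal.Quotient.mk I), z * a = 0 := by
      intro z hz
      have h3 : (idealOfVars (Fin n) K).map (Ideal.Quotient.mk I) ≤
          (Ideal.span {a}).annihilator := by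
        rw [Ideal.map_le_iff_le_comap]
        intro y hy
        rw [Ideal.mem_comap, Submodule.mem_annihilator]
        intro b hb
        obtain ⟨c, rfl⟩ := Ideal.mem_span_singleton'.1 hb
        rw [smul_eq_mul, mul_comm c a, ← mul_assoc, h y hy, zero_mul]
      have h4 := h3 hz
      rw [Submodule.mem_annihilator] at h4
      exact h4 a (Ideal.subset_span rfl)
    rw [smul_eq_mul, mul_comm]
    exact h2 z hz

/-- the map `f ↦ ∑ ∂_i f a_i` -/
noncomputable def dv (I : Ideal (MvPolynomial (Fin n) K)) (f : MvPolynomial (Fin n) K) :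
    (Fin n → MvPolynomial (Fin n) K ⧸ I) →ₗ[K] MvPolynomial (Fin n) K ⧸ I :=
  ∑ i, (LinearMap.mulLeft K (Ideal.Quotient.mk I (pderiv i f))).comp (LinearMap.proj i)

theorem dv_apply (I : Ideal (MvPolynomial (Fin n) K)) (f : MvPolynomial (Fin n) K)
    (a : Fin n → MvPolynomial (Fin n) K ⧸ I) :
    dv I f a = ∑ i, Ideal.Quotient.mk I (pderiv i f) * a i := by
  simp [dv, LinearMap.sum_apply]

theorem dv_add (I : Ideal (MvPolynomial (Fin n) K)) (f g : MvPolynomial (Fin n) K)
    (a : Fin n → MvPolynomial (Fin n) K ⧸ I) : dv I (f + g) a = dv I f a + dv I g a := by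
  simp only [dv_apply, map_add, add_mul, Finset.sum_add_distrib]

theorem dv_mul {I : Ideal (MvPolynomial (Fin n) K)} (r : MvPolynomial (Fin n) K)
    {f : MvPolynomial (Fin n) K} (hf : f ∈ I)
    (a : Fin n → MvPolynomial (Fin n) K ⧸ I) :
    dv I (r * f) a = Ideal.Quotient.mk I r * dv I f a := by
  simp only [dv_apply, Finset.mul_sum]
  refine Finset.sum_congr rfl fun i _ => ?_
  have h0 : Ideal.Quotient.mk I f = 0 := Ideal.Quotient.eq_zero_iff_mem.2 hf
  rw [pderiv_mul, map_add, map_mul, map_mul, h0, mul_zero, zero_add, mul_assoc]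

theorem dv_smul {I : Ideal (MvPolynomial (Fin n) K)} (f x : MvPolynomial (Fin n) K)
    (a : Fin n → MvPolynomial (Fin n) K ⧸ I) :
    dv I f (fun i => Ideal.Quotient.mk I x * a i) = Ideal.Quotient.mk I x * dv I f a := by
  simp only [dv_apply, Finset.mul_sum]
  exact Finset.sum_congr rfl fun i _ => by ring

end Pool.Agent.H38.Rig
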