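import Pool.Agent.H38.Rig.Socle

/-!
# Rigid local algebras: generators, socle and quotients by an element, end (helper38)

`A = S / I` rigid: `dim (I / mI) * dim soc A ≤ n * dim A / (xA + soc A)` for every `x` in `m`.
-/

namespace Pool.Agent.H38.Rig

open MvPolynomial Module

variable {K : Type} [Field K] {n : ℕ}

/-- linear algebra: `V ⊆ A^n`, `s ⊆ A`, `x : A → A`, `Θ` kills `xV` and `s^n ⊆ V` -/
theorem lin_ineq {A H : Type} [AddCommGroup A] [Module K A] [FiniteDimensional K A]
    [AddCommGroup H] [Module K H] (s : Submodule K A) (x : A →ₗ[K] A)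
    (V : Submodule K (Fin n → A)) (Θ : V →ₗ[K] H) (hΘ : Function.Surjective Θ)
    (hs : ∀ a : Fin n → A, (∀ i, a i ∈ s) → a ∈ V)
    (hs0 : ∀ (a : Fin n → A) (h : ∀ i, a i ∈ s), Θ ⟨a, hs a h⟩ = 0)
    (hx : ∀ a ∈ V, (fun i => x (a i)) ∈ V)
    (hx0 : ∀ (a : Fin n → A) (h : a ∈ V), Θ ⟨fun i => x (a i), hx a h⟩ = 0) :
    finrank K H ≤ n * finrank K (A ⧸ (LinearMap.range x ⊔ s)) := by
  classical
  -- the kernel of Θ is large
  let F : (V × (Fin n → s)) →ₗ[K] V :=
    { toFun := fun p => ⟨(fun i => x ((p.1 : Fin n → A) i)), hx _ p.1.2⟩ +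
        ⟨fun i => (p.2 i : A), hs _ fun i => (p.2 i).2⟩
      map_add' := by
        intro p q
        ext i
        simp
        abel
      map_smul' := by
        intro c p
        ext i
        simp [smul_add] }
  have hF : LinearMap.range F ≤ LinearMap.ker Θ := by
    rintro _ ⟨p, rfl⟩
    rw [LinearMap.mem_ker]
    change Θ (_ + _) = 0
    rw [map_add, hx0 _ p.1.2, hs0 _ (fun i => (p.2 i).2), add_zero]
  -- the kernel of F embeds in (s : x)^n
  let U : Submodule K A := s.comap x
  let G : LinearMap.ker F →ₗ[K] (Fin n → U) :=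
    { toFun := fun p i => ⟨((p : V × (Fin n → s)).1 : Fin n → A) i, by
        have h := LinearMap.mem_ker.1 p.2
        have h2 := congrArg (fun v : V => (v : Fin n → A) i) h
        change x (((p : V × (Fin n → s)).1 : Fin n → A) i) + ((p : V × (Fin n → s)).2 i : A) = 0 at h2
        change x (((p : V × (Fin n → s)).1 : Fin n → A) i) ∈ s
        rw [eq_neg_of_add_eq_zero_left h2]
        exact s.neg_mem ((p : V × (Fin n → s)).2 i).2⟩
      map_add' := by
        intro p q
        ext i
        simp
      map_smul' := by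
        intro c p
        ext i
        simp }
  have hG : Function.Injective G := by
    rw [injective_iff_map_eq_zero]
    intro p hp
    have h1 : ∀ i, ((p : V × (Fin n → s)).1 : Fin n → A) i = 0 := by
      intro i
      exact congrArg (fun g : Fin n → U => ((g i : U) : A)) hp
    have h := LinearMap.mem_ker.1 p.2
    have h3 : ∀ i, ((p : V × (Fin n → s)).2 i : A) = 0 := by
      intro i
      have h2 := congrArg (fun v : V => (v : Fin n → A) i) h
      change x (((p : V × (Fin n → s)).1 : Fin n → A) i) + ((p : V × (Fin n → s)).2 i : A) = 0 at h2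
      rwa [h1 i, map_zero, zero_add] at h2
    apply Subtype.ext
    refine Prod.ext ?_ ?_
    · apply Subtype.ext
      funext i
      exact h1 i
    · funext i
      apply Subtype.ext
      exact h3 i
  have e1 : finrank K (LinearMap.range F) + finrank K (LinearMap.ker F) =
      finrank K V + n * finrank K s := by
    rw [LinearMap.finrank_range_add_finrank_ker, finrank_prod, finrank_pi_fintype]
    simp
  have e2 : finrank K (LinearMap.ker F) ≤ n * finrank K U := by
    have := LinearMap.finrank_le_finrank_of_injective hG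
    rwa [finrank_pi_fintype, Finset.sum_const, Finset.card_univ, Fintype.card_fin, smul_eq_mul] at this
  have e3 : finrank K (LinearMap.range Θ) + finrank K (LinearMap.ker Θ) = finrank K V :=
    LinearMap.finrank_range_add_finrank_ker Θ
  rw [LinearMap.range_eq_top.2 hΘ, finrank_top] at e3
  have e4 : finrank K (LinearMap.range F) ≤ finrank K (LinearMap.ker Θ) :=
    Submodule.finrank_mono hF
  -- U
  let T : A × s →ₗ[K] A := (x.comp (LinearMap.fst K A s)) + (s.subtype.comp (LinearMap.snd K A s))
  have hT : LinearMap.range T = LinearMap.range x ⊔ s := by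
    apply le_antisymm
    · rintro _ ⟨p, rfl⟩
      exact Submodule.add_mem_sup ⟨p.1, rfl⟩ p.2.2
    · refine sup_le ?_ ?_
      · rintro _ ⟨a, rfl⟩
        exact ⟨(a, 0), by simp [T]⟩
      · intro a ha
        exact ⟨(0, ⟨a, ha⟩), by simp [T]⟩
  let J : U →ₗ[K] LinearMap.ker T :=
    { toFun := fun u => ⟨((u : A), -⟨x u, u.2⟩), by
        rw [LinearMap.mem_ker]
        simp [T]⟩
      map_add' := by
        intro u v
        ext <;> simp
        abel
      map_smul' := by
        intro c u
        ext <;> simp }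
  have hJ : Function.Injective J := by
    intro u v huv
    have := congrArg (fun w : LinearMap.ker T => ((w : A × s).1)) huv
    exact Subtype.ext this
  have e5 : finrank K U ≤ finrank K (LinearMap.ker T) := LinearMap.finrank_le_finrank_of_injective hJ
  have e6 : finrank K (LinearMap.range T) + finrank K (LinearMap.ker T) =
      finrank K A + finrank K s := by
    rw [LinearMap.finrank_range_add_finrank_ker, finrank_prod]
  rw [hT] at e6
  have e7 : finrank K (A ⧸ (LinearMap.range x ⊔ s)) + finrank K ↥(LinearMap.range x ⊔ s) =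
      finrank K A := Submodule.finrank_quotient_add_finrank _
  have e8 : finrank K U ≤ finrank K (A ⧸ (LinearMap.range x ⊔ s)) + finrank K s := by omega
  have e9 : n * finrank K U ≤ n * finrank K (A ⧸ (LinearMap.range x ⊔ s)) + n * finrank K s := by
    rw [← mul_add]
    exact Nat.mul_le_mul_left n e8
  omega

theorem finite_quot {I : Ideal (MvPolynomial (Fin n) K)} {N : ℕ}
    (hN : idealOfVars (Fin n) K ^ N ≤ I) : Module.Finite K (MvPolynomial (Fin n) K ⧸ I) := by
  have hX : ∀ i : Fin n, IsIntegral K (Ideal.Quotient.mk I (X i)) := by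
    intro i
    refine IsIntegral.of_pow (n := N + 1) (by omega) ?_
    have h : Ideal.Quotient.mk I (X i) ^ (N + 1) = 0 := by
      rw [← map_pow, Ideal.Quotient.eq_zero_iff_mem, pow_succ]
      have hXi : (X i : MvPolynomial (Fin n) K) ∈ idealOfVars (Fin n) K :=
        Ideal.subset_span ⟨i, rfl⟩
      exact I.mul_mem_right _ (hN (Ideal.pow_mem_pow hXi N))
    rw [h]
    exact isIntegral_zero
  have hint : Algebra.IsIntegral K (MvPolynomial (Fin n) K ⧸ I) := by
    constructor
    intro a
    obtain ⟨f, rfl⟩ := Ideal.Quotient.mk_surjective a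
    induction f using MvPolynomial.induction_on with
    | C c => exact isIntegral_algebraMap (R := K) (A := MvPolynomial (Fin n) K ⧸ I) (x := c)
    | add p q hp hq => rw [map_add]; exact hp.add hq
    | mul_X p i hp => rw [map_mul]; exact hp.mul (hX i)
  exact Algebra.IsIntegral.finite

theorem smul_S {I : Ideal (MvPolynomial (Fin n) K)} (r : MvPolynomial (Fin n) K)
    (a : MvPolynomial (Fin n) K ⧸ I) : r • a = Ideal.Quotient.mk I r * a := by
  obtain ⟨g, rfl⟩ := Ideal.Quotient.mk_surjective a
  rfl

theorem smul_K {I : Ideal (MvPolynomial (Fin n) K)} (c : K)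
    (a : MvPolynomial (Fin n) K ⧸ I) : c • a = Ideal.Quotient.mk I (C c) * a := by
  obtain ⟨g, rfl⟩ := Ideal.Quotient.mk_surjective a
  rw [← map_mul, C_mul']
  rfl

/-- **The socle inequality.** If `A = S / I` is rigid, `I` contains a power of `m = (x_1, ..., x_n)`
and is contained in `m ^ 2`, then `dim (I / mI) * dim soc A ≤ n * dim A / (xA + soc A)` for every
`x` in `m`. -/
theorem ineq {I : Ideal (MvPolynomial (Fin n) K)}
    (hN : ∃ N : ℕ, idealOfVars (Fin n) K ^ N ≤ I) (hI : I ≤ idealOfVars (Fin n) K ^ 2)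
    (hrig : ∀ φ : I →ₗ[MvPolynomial (Fin n) K] (MvPolynomial (Fin n) K ⧸ I),
      ∃ a : Fin n → MvPolynomial (Fin n) K ⧸ I, ∀ f : I,
        φ f = ∑ i : Fin n,
          Ideal.Quotient.mk I (pderiv i (f : MvPolynomial (Fin n) K)) * a i)
    {x : MvPolynomial (Fin n) K} (hx : x ∈ idealOfVars (Fin n) K) :
    finrank K (I ⧸ (idealOfVars (Fin n) K • (⊤ : Submodule (MvPolynomial (Fin n) K) I))) *
      finrank K (soc I) ≤
    n * finrank K ((MvPolynomial (Fin n) K ⧸ I) ⧸
      (Ideal.span {Ideal.Quotient.mk I x} ⊔ soc I)) := by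
  classical
  obtain ⟨N, hN⟩ := hN
  have hfin := finite_quot hN
  by_cases hfq : Module.Finite K
      (I ⧸ (idealOfVars (Fin n) K • (⊤ : Submodule (MvPolynomial (Fin n) K) I)))
  swap
  · rw [finrank_of_not_finite hfq, zero_mul]
    exact Nat.zero_le _
  let b := finBasis K
    (I ⧸ (idealOfVars (Fin n) K • (⊤ : Submodule (MvPolynomial (Fin n) K) I)))
  choose f hf using fun k => Submodule.mkQ_surjective
    (idealOfVars (Fin n) K • (⊤ : Submodule (MvPolynomial (Fin n) K) I)) (b k)
  let s : Submodule K (MvPolynomial (Fin n) K ⧸ I) := (soc I).restrictScalars K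
  let x' : (MvPolynomial (Fin n) K ⧸ I) →ₗ[K] (MvPolynomial (Fin n) K ⧸ I) :=
    LinearMap.mulLeft K (Ideal.Quotient.mk I x)
  let V : Submodule K (Fin n → MvPolynomial (Fin n) K ⧸ I) :=
    ⨅ f : I, s.comap (dv I (f : MvPolynomial (Fin n) K))
  have hV : ∀ a, a ∈ V ↔ ∀ f ∈ I, dv I f a ∈ soc I := by
    intro a
    simp only [V, Submodule.mem_iInf, Submodule.mem_comap]
    exact ⟨fun h f hf => h ⟨f, hf⟩, fun h f => h f f.2⟩
  let Θ : V →ₗ[K] (Fin (finrank K
      (I ⧸ (idealOfVars (Fin n) K • (⊤ : Submodule (MvPolynomial (Fin n) K) I)))) → s) :=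
    { toFun := fun a k => ⟨dv I (f k : MvPolynomial (Fin n) K) a, (hV a).1 a.2 _ (f k).2⟩
      map_add' := by
        intro a c
        ext k
        simp
      map_smul' := by
        intro c a
        ext k
        simp }
  have hsoc0 : ∀ (a : Fin n → MvPolynomial (Fin n) K ⧸ I), (∀ i, a i ∈ s) →
      ∀ f ∈ I, dv I f a = 0 := by
    intro a ha g hg
    rw [dv_apply]
    refine Finset.sum_eq_zero fun i _ => ?_
    refine (mem_soc.1 (ha i)) _ ?_
    rw [mem_vars_iff, const_pderiv]
    have h2 := (mem_pow_idealOfVars_iff (σ := Fin n) (R := K) 2 g).1 (hI hg)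
    rw [lin_apply]
    by_contra h0
    have := h2 (Finsupp.single i 1) (mem_support_iff.2 h0)
    simp at this
  have hxsoc : ∀ a ∈ soc I, Ideal.Quotient.mk I x * a = 0 := fun a ha => mem_soc.1 ha x hx
  have hs : ∀ a : Fin n → MvPolynomial (Fin n) K ⧸ I, (∀ i, a i ∈ s) → a ∈ V := by
    intro a ha
    rw [hV]
    intro g hg
    rw [hsoc0 a ha g hg]
    exact (soc I).zero_mem
  have hs0 : ∀ (a : Fin n → MvPolynomial (Fin n) K ⧸ I) (h : ∀ i, a i ∈ s), Θ ⟨a, hs a h⟩ = 0 := by
    intro a h
    ext k
    exact hsoc0 a h _ (f k).2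
  have hxV : ∀ a ∈ V, (fun i => x' (a i)) ∈ V := by
    intro a ha
    rw [hV] at ha ⊢
    intro g hg
    have : dv I g (fun i => x' (a i)) = Ideal.Quotient.mk I x * dv I g a := dv_smul g x a
    rw [this]
    exact (soc I).mul_mem_left _ (ha g hg)
  have hx0 : ∀ (a : Fin n → MvPolynomial (Fin n) K ⧸ I) (h : a ∈ V),
      Θ ⟨fun i => x' (a i), hxV a h⟩ = 0 := by
    intro a h
    ext k
    change dv I (f k : MvPolynomial (Fin n) K) (fun i => x' (a i)) = 0
    have : dv I (f k : MvPolynomial (Fin n) K) (fun i => x' (a i)) =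
      Ideal.Quotient.mk I x * dv I (f k : MvPolynomial (Fin n) K) a := dv_smul _ x a
    rw [this]
    exact hxsoc _ ((hV a).1 h _ (f k).2)
  have hΘ : Function.Surjective Θ := by
    intro σ
    let L := b.constr K σ
    have hsm : ∀ (r : MvPolynomial (Fin n) K) (g : I),
        ((L (Submodule.Quotient.mk (r • g)) : s) : MvPolynomial (Fin n) K ⧸ I) =
          r • ((L (Submodule.Quotient.mk g) : s) : MvPolynomial (Fin n) K ⧸ I) := by
      intro r g
      have h1 : (Submodule.Quotient.mk (r • g) :
          I ⧸ (idealOfVars (Fin n) K • (⊤ : Submodule (MvPolynomial (Fin n) K) I))) =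
          (constantCoeff r) • Submodule.Quotient.mk g := by
        rw [← Submodule.Quotient.mk_smul, Submodule.Quotient.eq]
        have h2 : r • g - constantCoeff r • g = (r - C (constantCoeff r)) • g := by
          apply Subtype.ext
          change r * (g : MvPolynomial (Fin n) K) - constantCoeff r • (g : MvPolynomial (Fin n) K) =
            (r - C (constantCoeff r)) * (g : MvPolynomial (Fin n) K)
          rw [sub_mul, C_mul']
        rw [h2]
        refine Submodule.smul_mem_smul ?_ trivial
        rw [mem_vars_iff]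
        simp
      rw [h1, map_smul]
      have h3 : r • ((L (Submodule.Quotient.mk g) : s) : MvPolynomial (Fin n) K ⧸ I) =
          Ideal.Quotient.mk I r * ((L (Submodule.Quotient.mk g) : s) : MvPolynomial (Fin n) K ⧸ I) := by
        exact smul_S r _
      have h4 : Ideal.Quotient.mk I (r - C (constantCoeff r)) *
          ((L (Submodule.Quotient.mk g) : s) : MvPolynomial (Fin n) K ⧸ I) = 0 := by
        refine mem_soc.1 (L (Submodule.Quotient.mk g)).2 _ ?_
        rw [mem_vars_iff]
        simp
      rw [map_sub, sub_mul, sub_eq_zero] at h4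
      rw [h3, h4]
      rw [Submodule.coe_smul]
      exact smul_K _ _
    let φ : I →ₗ[MvPolynomial (Fin n) K] (MvPolynomial (Fin n) K ⧸ I) :=
      { toFun := fun g => ((L (Submodule.Quotient.mk g) : s) : MvPolynomial (Fin n) K ⧸ I)
        map_add' := by
          intro g h
          rw [Submodule.Quotient.mk_add, map_add, Submodule.coe_add]
        map_smul' := hsm }
    obtain ⟨a, ha⟩ := hrig φ
    have ha' : ∀ g : I, dv I (g : MvPolynomial (Fin n) K) a = φ g := by
      intro g
      rw [ha g, dv_apply]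
    have haV : a ∈ V := by
      rw [hV]
      intro g hg
      rw [ha' ⟨g, hg⟩]
      exact (L (Submodule.Quotient.mk ⟨g, hg⟩)).2
    refine ⟨⟨a, haV⟩, ?_⟩
    funext k
    apply Subtype.ext
    change dv I (f k : MvPolynomial (Fin n) K) a = _
    rw [ha' (f k)]
    change ((L (Submodule.Quotient.mk (f k)) : s) : MvPolynomial (Fin n) K ⧸ I) = _
    have h5 : L (Submodule.Quotient.mk (f k)) = σ k := by
      have h6 : Submodule.Quotient.mk (f k) = b k := hf k
      rw [h6]
      exact b.constr_basis K σ k
    rw [h5]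
  have key := lin_ineq s x' V Θ hΘ hs hs0 hxV hx0
  rw [finrank_pi_fintype, Finset.sum_const, Finset.card_univ, Fintype.card_fin, smul_eq_mul] at key
  have hJ : LinearMap.range x' ⊔ s =
      (Ideal.span {Ideal.Quotient.mk I x} ⊔ soc I).restrictScalars K := by
    ext a
    constructor
    · intro ha
      obtain ⟨c, ⟨d, rfl⟩, e, he, rfl⟩ := Submodule.mem_sup.1 ha
      change Ideal.Quotient.mk I x * d + e ∈ Ideal.span {Ideal.Quotient.mk I x} ⊔ soc I
      exact Ideal.add_mem _ (Ideal.mem_sup_left (Ideal.mul_mem_right _ _ (Ideal.subset_span rfl)))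
        (Ideal.mem_sup_right he)
    · intro ha
      have ha' : a ∈ Ideal.span {Ideal.Quotient.mk I x} ⊔ soc I := ha
      obtain ⟨c, hc, e, he, rfl⟩ := Submodule.mem_sup.1 ha'
      obtain ⟨d, rfl⟩ := Ideal.mem_span_singleton'.1 hc
      refine Submodule.add_mem_sup ⟨d, ?_⟩ he
      change Ideal.Quotient.mk I x * d = _
      rw [mul_comm]
  rw [hJ] at key
  have hq := (Submodule.Quotient.restrictScalarsEquiv K
    (Ideal.span {Ideal.Quotient.mk I x} ⊔ soc I)).finrank_eq
  rw [hq] at key
  exact key

end Pool.Agent.H38.Rig
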